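import Pool.Agent.U94.TC.Easy
import Pool.Agent.U94.TC.Hard

/-!
# Tractability and type clones of canonical polymorphisms: the answer is negative

The structure `(ℚ; <)` is finitely bounded, ordered, homogeneous and Ramsey, and its constraint
satisfaction problem is in `P`. But for every reduct `Γ` of `(ℚ; <)` which contains the order, and for
all parameters `c` there is a template on the finite set of the types of pairs in `(ℚ; <, c)`, with
eight ternary relations which are preserved by all the operations of the type clone of `Γ`, whose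
constraint satisfaction problem is NP-hard. Hence, unless `P = NP`, no type clone of `(ℚ; <)`
corresponds to a tractable CSP, and the statement of Question 1 is equivalent to `P = NP`.
-/

namespace Pool.Agent.Results.MP_436c39_lc.OrderTypeClones

open Pool.Agent.NPC Pool.Agent.U94.TC

theorem maxArity_rat : maxArity (fun _ : Fin 1 => 2) = 2 := by
  simp [maxArity]

theorem not_corresponds (hP : ¬ PeqNP) {κ : Type} {arΓ : κ → ℕ} {Γ : Str κ arΓ ℚ}
    (hΓ : HasOrder Γ) {n : ℕ} (c : Fin n → ℚ) :
    ¬ CorrespondsToTractable (typeClone ratStr c Γ 2) := fun h =>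
  hP (NPHard.collapse (npHard_tmpl c)
    (h 8 (fun _ => 3) (tmpl c) fun _ _ _ hF i => typeClone_preserves hΓ hF i))

theorem hasOrder_rat : HasOrder ratStr := ⟨0, rfl, fun _ => Iff.rfl⟩

/-- (1) The structure `(ℚ; <)` is finitely bounded, ordered, homogeneous, Ramsey, a reduct of itself
and has a tractable CSP. (2) For every structure `Γ` on `ℚ` which contains the order (in particular
for all the reducts of `(ℚ; <)` which contain the order) and all parameters `c`, there are eight
ternary relations on the set of the types of pairs in `(ℚ; <, c)` which are preserved by all the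
operations of the type clone, and the CSP of these relations is NP-hard. (3) If `P ≠ NP`, then no type
clone of such a `Γ` corresponds to a tractable CSP. (4) Question 1 has a positive answer if and only if
`P = NP`. -/
theorem result :
    (FinitelyBounded ratStr ∧ Ordered ratStr ∧ Homogeneous ratStr ∧ Ramsey ratStr ∧
      IsReduct ratStr ratStr ∧ Tractable ratStr) ∧
    (∀ (κ : Type) (arΓ : κ → ℕ) (Γ : Str κ arΓ ℚ), HasOrder Γ → ∀ (n : ℕ) (c : Fin n → ℚ),
      ∃ 𝕊 : Str (Fin 8) (fun _ => 3) (Ty ratStr c 2),
        (∀ k, 1 ≤ k → ∀ F ∈ typeClone ratStr c Γ 2 k, ∀ i, Preserves F (𝕊 i)) ∧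
          NPHardP (CSP 𝕊)) ∧
    (¬ PeqNP → ∀ (κ : Type) (arΓ : κ → ℕ) (Γ : Str κ arΓ ℚ), HasOrder Γ →
      ∀ (n : ℕ) (c : Fin n → ℚ), ¬ CorrespondsToTractable (typeClone ratStr c Γ 2)) ∧
    (Question1 ↔ PeqNP) := by
  refine ⟨⟨finitelyBounded_rat, ordered_rat, homogeneous_rat, ramsey_rat, reduct_rat,
    tractable_rat⟩, fun κ arΓ Γ hΓ n c => ⟨tmpl c, fun k _ F hF i => typeClone_preserves hΓ hF i,
    npHard_tmpl c⟩, fun hP κ arΓ Γ hΓ n c => not_corresponds hP hΓ c, ?_, ?_⟩
  · intro hQ
    by_contra hP
    obtain ⟨n, c, hc⟩ := hQ ℚ 1 (fun _ => 2) ratStr (Fin 1) (fun _ => 2) ratStr finitelyBounded_rat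
      ordered_rat homogeneous_rat ramsey_rat reduct_rat tractable_rat
    rw [maxArity_rat] at hc
    exact not_corresponds hP hasOrder_rat c hc
  · intro hP D _ s ar 𝔹 κ arΓ Γ _ _ hhom _ _ _
    refine ⟨0, Fin.elim0, fun t ar' 𝕊 _ => ?_⟩
    have := finite_ty hhom Fin.elim0 (maxArity ar)
    exact hP _ (inNPP_finite 𝕊)

end Pool.Agent.Results.MP_436c39_lc.OrderTypeClones
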